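import Pool.Agent.Helper58_MG.Core

/-!
# MFUS and SFUS
-/

open Set

namespace Pool.Agent.MG.H58

open Pool.Agent.MG

variable {I : Type} [Idx I]

/-- Measurable selection of the numbers of the successors at a Miller splitting node. -/
theorem sel_m {β : I} {N : Set (Cond I)} {Z : Set I} (hN : GoodN I β N Z) {α : I}
    (hty : ty α = true) (f : Pt I → Cond I × Node) (h1 : MeasC f) (h2 : DepOn (Z ∩ Iio α) f)
    (g : Pt I → ℕ) (h3 : MeasC g) (h4 : DepOn (Z ∩ Iio α) g) :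
    ∃ g' : Pt I → ℕ, (MeasC g' ∧ DepOn (Z ∩ Iio α) g') ∧ ∀ y, Inv N α (f y) y →
      g y < g' y ∧ z1 (f y).2 (g' y) ∈ (f y).1.T α y := by
  obtain ⟨g', g1, g2, g3⟩ := exists_sel (I := I) (univ : Set ℕ) countable_univ
    (fun j y => (f y).1 ∈ N ∧ g y < j ∧ z1 (f y).2 j ∈ (f y).1.T α y)
    (by
      intro j _
      have e1 : MeasurableSet {y | (f y).1 ∈ N} := h1.preimage {x | x.1 ∈ N}
      have e2 : MeasurableSet {y | g y < j} := h3.preimage {n | n < j}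
      have e3 : MeasurableSet {y | z1 (f y).2 j ∈ (f y).1.T α y} :=
        h1.setOf (P := fun x y => z1 x.2 j ∈ x.1.T α y)
          fun x => (x.1.meas α) (measurableSet_mem_node _)
      exact e1.inter (e2.inter e3))
    (Z ∩ Iio α)
    (by
      intro j _ y y' h
      have e1 := h2 y y' h
      have e2 := h4 y y' h
      by_cases hx : (f y).1 ∈ N
      · have e3 : (f y).1.T α y = (f y).1.T α y' := hN.dep _ hx α y y' h
        rw [e1] at e3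
        simp only [e1, e2, e3]
      · have hx' : ¬ (f y').1 ∈ N := by rw [← e1]; exact hx
        simp only [hx, hx', false_and])
  refine ⟨g', ⟨g1, g2⟩, fun y hy => ?_⟩
  have hs := hy.2.2.2.2
  rw [hty] at hs
  obtain ⟨k, hk1, hk2⟩ := hs (g y + 1)
  exact (g3 y ⟨k, mem_univ _, hy.1, by omega, hk2⟩).2.2

/-- The sequence of numbers of successors. -/
theorem sel_ms {β : I} {N : Set (Cond I)} {Z : Set I} (hN : GoodN I β N Z) {α : I}
    (hty : ty α = true) (f : Pt I → Cond I × Node) (h1 : MeasC f) (h2 : DepOn (Z ∩ Iio α) f) :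
    ∃ m : ℕ → Pt I → ℕ, (∀ k, MeasC (m k) ∧ DepOn (Z ∩ Iio α) (m k)) ∧ ∀ y, Inv N α (f y) y →
      StrictMono (fun k => m k y) ∧ ∀ k, z1 (f y).2 (m k y) ∈ (f y).1.T α y := by
  let S := {g : Pt I → ℕ // MeasC g ∧ DepOn (Z ∩ Iio α) g}
  have h : ∀ g : S, ∃ g' : S, ∀ y, Inv N α (f y) y →
      g.1 y < g'.1 y ∧ z1 (f y).2 (g'.1 y) ∈ (f y).1.T α y := fun g => by
    obtain ⟨g', k1, k2⟩ := sel_m hN hty f h1 h2 g.1 g.2.1 g.2.2
    exact ⟨⟨g', k1⟩, k2⟩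
  choose F hF using h
  let z0 : S := ⟨fun _ => 0, measC_const 0, fun _ _ _ => rfl⟩
  refine ⟨fun k => (F^[k + 1] z0).1, fun k => (F^[k + 1] z0).2, fun y hy => ⟨?_, fun k => ?_⟩⟩
  · refine strictMono_nat_of_lt_succ fun k => ?_
    show (F^[k + 1] z0).1 y < (F^[k + 2] z0).1 y
    rw [Function.iterate_succ_apply' F (k + 1)]
    exact (hF _ y hy).1
  · show z1 (f y).2 ((F^[k + 1] z0).1 y) ∈ (f y).1.T α y
    rw [Function.iterate_succ_apply']
    exact (hF _ y hy).2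

theorem mfus : MfusStmt I := by
  intro β N Z 𝒟 hN hD α hα hty e0 he0 Dq hDq
  let C := Z ∩ Iio α
  let Sub := {f : Pt I → Cond I × Node // MeasC f ∧ DepOn C f}
  obtain ⟨f0, hf0, hf0'⟩ := sel_next hN hD hα hDq (fun _ => e0) (fun _ => []) (measC_const _)
    (fun _ _ _ => rfl) (measC_const _) (fun _ _ _ => rfl) 0
  have hm : ∀ f : Sub, ∃ m : ℕ → Pt I → ℕ, (∀ k, MeasC (m k) ∧ DepOn C (m k)) ∧
      ∀ y, Inv N α (f.1 y) y →
        StrictMono (fun k => m k y) ∧ ∀ k, z1 (f.1 y).2 (m k y) ∈ (f.1 y).1.T α y :=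
    fun f => sel_ms hN hty f.1 f.2.1 f.2.2
  choose mm hmm1 hmm2 using hm
  have hn : ∀ (l : ℕ) (f : Sub) (k : ℕ), ∃ h : Sub, ∀ y, Gen I N 𝒟 α y → Inv N α (f.1 y) y →
      Inv N α (h.1 y) y ∧ z1 (f.1 y).2 (mm f k y) <+: (h.1 y).2 ∧ (h.1 y).1 ≤ (f.1 y).1 ∧
        ∀ n, n < l → ∃ d ∈ N, d ∈ Dq n ∧ (h.1 y).1 ≤ d ∧ d ≤ (f.1 y).1 := by
    intro l f k
    have e1 : MeasC (fun y => z1 (f.1 y).2 (mm f k y)) :=
      ((f.2.1.prodMk (hmm1 f k).1).comp fun z : (Cond I × Node) × ℕ => z1 z.1.2 z.2)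
    have e2 : DepOn C (fun y => z1 (f.1 y).2 (mm f k y)) := by
      intro y y' h
      show z1 (f.1 y).2 (mm f k y) = z1 (f.1 y').2 (mm f k y')
      rw [f.2.2 y y' h, (hmm1 f k).2 y y' h]
    obtain ⟨h, h1, h2⟩ := sel_next hN hD hα hDq (fun y => (f.1 y).1)
      (fun y => z1 (f.1 y).2 (mm f k y)) (f.2.1.comp Prod.fst) (depOn_comp f.2.2 Prod.fst) e1 e2 l
    exact ⟨⟨h, h1⟩, fun y hy hi => h2 y hy hi.1 hi.2.1 ((hmm2 f y hi).2 k)⟩
  choose nx' hnx using hn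
  let F : List ℕ → Sub := fun τ => List.rec ⟨f0, hf0⟩ (fun k τ ih => nx' (τ.length + k + 1) ih k) τ
  have hFc : ∀ k τ, F (k :: τ) = nx' (τ.length + k + 1) (F τ) k := fun _ _ => rfl
  have hF0 : F [] = ⟨f0, hf0⟩ := rfl
  have hrev : ∀ (σ : List ℕ) (k : ℕ), F (σ ++ [k]).reverse = nx' (σ.length + k + 1) (F σ.reverse) k := by
    intro σ k
    rw [List.reverse_append, List.reverse_singleton, List.singleton_append, hFc,
      List.length_reverse]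
  have hinv : ∀ y ∈ (e0.restr α).body, Gen I N 𝒟 α y → ∀ τ, Inv N α ((F τ).1 y) y := by
    intro y hy hg τ
    induction τ with
    | nil => exact (hf0' y hg he0 hy (e0.good α y).nil).1
    | cons k τ ih => exact (hnx _ _ _ y hg ih).1
  refine ⟨fun σ y => ((F σ.reverse).1 y).1, fun σ y => ((F σ.reverse).1 y).2,
    fun σ k => mm (F σ.reverse) k,
    fun σ => ⟨(F σ.reverse).2.1.comp Prod.fst, depOn_comp (F σ.reverse).2.2 Prod.fst⟩,
    fun σ => ⟨(F σ.reverse).2.1.comp Prod.snd, depOn_comp (F σ.reverse).2.2 Prod.snd⟩,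
    fun σ k => hmm1 _ k, ?_⟩
  intro y hy hg
  have hi := hinv y hy hg
  refine ⟨fun σ => ⟨(hi _).1, (hi _).2.1, (hi _).2.2.1⟩, ?_, ?_, ?_, fun σ => (hmm2 _ y (hi _)).1,
    ?_, fun σ => (hi _).2.2.2.1⟩
  · exact (hf0' y hg he0 hy (e0.good α y).nil).2.2.1
  · intro σ k
    show ((F (σ ++ [k]).reverse).1 y).1 ≤ ((F σ.reverse).1 y).1
    rw [hrev]
    exact (hnx _ _ _ y hg (hi _)).2.2.1
  · intro σ k n hn
    show ∃ d ∈ N, d ∈ Dq n ∧ ((F (σ ++ [k]).reverse).1 y).1 ≤ d ∧ d ≤ ((F σ.reverse).1 y).1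
    rw [hrev]
    exact (hnx _ _ _ y hg (hi _)).2.2.2 n (by omega)
  · intro σ k
    show z1 ((F σ.reverse).1 y).2 (mm (F σ.reverse) k y) <+: ((F (σ ++ [k]).reverse).1 y).2
    rw [hrev]
    exact (hnx _ _ _ y hg (hi _)).2.1

theorem sfus : SfusStmt I := by
  intro β N Z 𝒟 hN hD α hα hty e0 he0 Dq hDq
  let C := Z ∩ Iio α
  let Sub := {f : Pt I → Cond I × Node // MeasC f ∧ DepOn C f}
  obtain ⟨f0, hf0, hf0'⟩ := sel_next hN hD hα hDq (fun _ => e0) (fun _ => []) (measC_const _)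
    (fun _ _ _ => rfl) (measC_const _) (fun _ _ _ => rfl) 0
  have hn : ∀ (l : ℕ) (f : Sub) (b : Bool), ∃ h : Sub, ∀ y, Gen I N 𝒟 α y → Inv N α (f.1 y) y →
      Inv N α (h.1 y) y ∧ (f.1 y).2 ++ [b] <+: (h.1 y).2 ∧ (h.1 y).1 ≤ (f.1 y).1 ∧
        ∀ n, n < l → ∃ d ∈ N, d ∈ Dq n ∧ (h.1 y).1 ≤ d ∧ d ≤ (f.1 y).1 := by
    intro l f b
    obtain ⟨h, h1, h2⟩ := sel_next hN hD hα hDq (fun y => (f.1 y).1)
      (fun y => (f.1 y).2 ++ [b]) (f.2.1.comp Prod.fst) (depOn_comp f.2.2 Prod.fst)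
      (f.2.1.comp fun z => z.2 ++ [b]) (depOn_comp f.2.2 fun z => z.2 ++ [b]) l
    refine ⟨⟨h, h1⟩, fun y hy hi => h2 y hy hi.1 hi.2.1 ?_⟩
    have hs := hi.2.2.2.2
    rw [hty] at hs
    cases b
    · exact hs.1
    · exact hs.2
  choose nx' hnx using hn
  let F : List Bool → Sub := fun τ => List.rec ⟨f0, hf0⟩ (fun b τ ih => nx' (τ.length + 1) ih b) τ
  have hFc : ∀ b τ, F (b :: τ) = nx' (τ.length + 1) (F τ) b := fun _ _ => rfl
  have hrev : ∀ (σ : List Bool) (b : Bool), F (σ ++ [b]).reverse = nx' (σ.length + 1) (F σ.reverse) b := by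
    intro σ b
    rw [List.reverse_append, List.reverse_singleton, List.singleton_append, hFc,
      List.length_reverse]
  have hinv : ∀ y ∈ (e0.restr α).body, Gen I N 𝒟 α y → ∀ τ, Inv N α ((F τ).1 y) y := by
    intro y hy hg τ
    induction τ with
    | nil => exact (hf0' y hg he0 hy (e0.good α y).nil).1
    | cons b τ ih => exact (hnx _ _ _ y hg ih).1
  refine ⟨fun σ y => ((F σ.reverse).1 y).1, fun σ y => ((F σ.reverse).1 y).2,
    fun σ => ⟨(F σ.reverse).2.1.comp Prod.fst, depOn_comp (F σ.reverse).2.2 Prod.fst⟩,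
    fun σ => ⟨(F σ.reverse).2.1.comp Prod.snd, depOn_comp (F σ.reverse).2.2 Prod.snd⟩, ?_⟩
  intro y hy hg
  have hi := hinv y hy hg
  refine ⟨fun σ => ⟨(hi _).1, (hi _).2.1, (hi _).2.2.1⟩, ?_, ?_, ?_, ?_,
    fun σ => (hi _).2.2.2.1⟩
  · exact (hf0' y hg he0 hy (e0.good α y).nil).2.2.1
  · intro σ b
    show ((F (σ ++ [b]).reverse).1 y).1 ≤ ((F σ.reverse).1 y).1
    rw [hrev]
    exact (hnx _ _ _ y hg (hi _)).2.2.1
  · intro σ b n hn
    show ∃ d ∈ N, d ∈ Dq n ∧ ((F (σ ++ [b]).reverse).1 y).1 ≤ d ∧ d ≤ ((F σ.reverse).1 y).1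
    rw [hrev]
    exact (hnx _ _ _ y hg (hi _)).2.2.2 n (by omega)
  · intro σ b
    show ((F σ.reverse).1 y).2 ++ [b] <+: ((F (σ ++ [b]).reverse).1 y).2
    rw [hrev]
    exact (hnx _ _ _ y hg (hi _)).2.1

end Pool.Agent.MG.H58
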