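import Pool.Agent.Helper56_MG.Base3
import Pool.Agent.Helper56_MG.Stmts

/-!
# Fusion at one coordinate: common part of MFUS and SFUS
-/

open Set

namespace Pool.Agent.MG.H58

open Pool.Agent.MG

variable {I : Type} [Idx I]

/-- The invariant of the states of the systems. -/
def Inv (N : Set (Cond I)) (α : I) (x : Cond I × Node) (y : Pt I) : Prop :=
  x.1 ∈ N ∧ y ∈ (x.1.restr α).body ∧ α ∈ x.1.S ∧ x.2 ∈ x.1.T α y ∧ Spl (ty α) (x.1.T α y) x.2

theorem measurableSet_spl (b : Bool) (t : Node) : MeasurableSet {T : Set Node | Spl b T t} := by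
  cases b
  · have : {T : Set Node | Spl false T t} = {T : Set Node | t ++ [false] ∈ T} ∩
        {T : Set Node | t ++ [true] ∈ T} := rfl
    rw [this]
    exact (measurableSet_mem_node _).inter (measurableSet_mem_node _)
  · have : {T : Set Node | Spl true T t} =
        ⋂ n : ℕ, ⋃ k : ℕ, ⋃ _ : n ≤ k, {T : Set Node | t ++ List.replicate k false ++ [true] ∈ T} := by
      ext T
      simp only [Spl, mem_setOf_eq, mem_iInter, mem_iUnion, exists_prop]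
    rw [this]
    exact MeasurableSet.iInter fun n => MeasurableSet.iUnion fun k => MeasurableSet.iUnion fun _ =>
      measurableSet_mem_node _

theorem measurableSet_inv (N : Set (Cond I)) (α : I) (x : Cond I × Node) :
    MeasurableSet {y : Pt I | Inv N α x y} := by
  have h : {y : Pt I | Inv N α x y} = {_y : Pt I | x.1 ∈ N ∧ α ∈ x.1.S} ∩ ((x.1.restr α).body ∩
      ({y | x.2 ∈ x.1.T α y} ∩ {y | Spl (ty α) (x.1.T α y) x.2})) := by
    ext y
    simp only [Inv, mem_setOf_eq, mem_inter_iff]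
    tauto
  rw [h]
  refine (MeasurableSet.const _).inter ((Cond.measurableSet_body _).inter
    (((x.1.meas α) (measurableSet_mem_node _)).inter ((x.1.meas α) (measurableSet_spl _ _))))

theorem depOn_inv {β : I} {N : Set (Cond I)} {Z : Set I} (hN : GoodN I β N Z) (α : I)
    (x : Cond I × Node) : DepOn (Z ∩ Iio α) (Inv N α x) := by
  intro y y' h
  by_cases hx : x.1 ∈ N
  · have h1 : (y ∈ (x.1.restr α).body) = (y' ∈ (x.1.restr α).body) :=
      Cond.depOn_restr_body (hN.supp _ hx) (hN.dep _ hx) α y y' h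
    have h2 : x.1.T α y = x.1.T α y' := hN.dep _ hx α y y' h
    simp only [Inv, h1, h2]
  · simp only [Inv, hx, false_and]

/-- Meeting finitely many dense sets. -/
theorem meet {β : I} {N : Set (Cond I)} {Z : Set I} {𝒟 : Set (Set (Cond I))}
    (hD : GoodD I β N Z 𝒟) {α : I} (hα : α ∈ Z) {Dq : ℕ → Set (Cond I)} (hDq : ∀ n, Dq n ∈ 𝒟)
    {y : Pt I} (hy : Gen I N 𝒟 α y) {e : Cond I} (he : e ∈ N) (hye : y ∈ (e.restr α).body)
    (l : ℕ) : ∃ x ∈ N, x ≤ e ∧ y ∈ (x.restr α).body ∧ α ∈ x.S ∧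
      ∀ n, n < l → ∃ d ∈ N, d ∈ Dq n ∧ x ≤ d ∧ d ≤ e := by
  induction l with
  | zero =>
    obtain ⟨d, h1, h2, h3, h4⟩ := hy e he hye _ (hD.ds α hα)
    exact ⟨d, h1, h2, h4, h3, fun n hn => absurd hn (Nat.not_lt_zero n)⟩
  | succ l ih =>
    obtain ⟨x, h1, h2, h3, h4, h5⟩ := ih
    obtain ⟨x', g1, g2, g3, g4⟩ := hy x h1 h3 _ (hDq l)
    obtain ⟨x'', f1, f2, f3, f4⟩ := hy x' g1 g4 _ (hD.ds α hα)
    refine ⟨x'', f1, f2.trans (g2.trans h2), f4, f3, fun n hn => ?_⟩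
    rcases Nat.lt_succ_iff_lt_or_eq.mp hn with hn | rfl
    · obtain ⟨d, d1, d2, d3, d4⟩ := h5 n hn
      exact ⟨d, d1, d2, f2.trans (g2.trans d3), d4⟩
    · exact ⟨x', g1, g3, f2, g2.trans h2⟩

/-- The main step. -/
theorem core {β : I} {N : Set (Cond I)} {Z : Set I} {𝒟 : Set (Set (Cond I))}
    (hN : GoodN I β N Z) (hD : GoodD I β N Z 𝒟) {α : I} (hα : α ∈ Z) {Dq : ℕ → Set (Cond I)}
    (hDq : ∀ n, Dq n ∈ 𝒟) {y : Pt I} (hy : Gen I N 𝒟 α y) {e : Cond I} (he : e ∈ N)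
    (hye : y ∈ (e.restr α).body) {t : Node} (ht : t ∈ e.T α y) (l : ℕ) :
    ∃ x : Cond I × Node, Inv N α x y ∧ t <+: x.2 ∧ x.1 ≤ e ∧
      ∀ n, n < l → ∃ d ∈ N, d ∈ Dq n ∧ x.1 ≤ d ∧ d ≤ e := by
  obtain ⟨d, hd1, hd2, hd3, hd4⟩ := hy e he hye _ (hD.dt e he α hα t)
  have hd5 : ∀ y ∈ (d.restr α).body, t ∈ e.T α y := by
    rcases hd3 with h | h
    · exact h
    · exact absurd ht (h y hd4)
  have hg : Cond.glue d e α ∈ N := hN.glue α (hN.zlt α hα) d hd1 e he (Cond.restr_mono hd2 α)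
  have hgr : (Cond.glue d e α).restr α = d.restr α := Cond.glue_restr d e le_rfl
  have hgT : (Cond.glue d e α).T α = e.T α := Cond.glue_T_ge d e le_rfl
  have hge : Cond.glue d e α ≤ e := Cond.glue_le_right (Cond.restr_mono hd2 α)
  obtain ⟨e', h1, h2, h3, h4⟩ := hN.node α hα _ hg t (by
    intro y' hy'
    rw [hgr] at hy'
    rw [hgT]
    exact hd5 y' hy')
  have hye' : y ∈ (e'.restr α).body := by
    rw [h3, hgr]
    exact hd4
  have hT' : e'.T α y = subT (e.T α y) t := by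
    rw [h4 y (by rw [hgr]; exact hd4), hgT]
  obtain ⟨x, x1, x2, x3, x4, x5⟩ := meet hD hα hDq hy h1 hye' l
  have hxT : x.T α y ⊆ subT (e.T α y) t := by
    rw [← hT']
    exact Cond.T_subset x2 x3
  obtain ⟨z, hz, -⟩ := (x.good α y).exists_branch (x.good α y).nil
  have hz1 : pre z t.length ∈ x.T α y := hz.1 t.length
  have hz2 : pre z t.length = t := by
    have hl : (pre z t.length).length = t.length := length_pre z _
    rcases (hxT hz1).2 with h | h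
    · exact h.eq_of_length hl
    · exact (h.eq_of_length hl.symm).symm
  obtain ⟨u, hu1, hu2, hu3⟩ := (x.good α y).spl t (by rw [← hz2]; exact hz1)
  refine ⟨(x, u), ⟨x1, x3, x4, hu1, hu3⟩, hu2, x2.trans (h2.trans hge), fun n hn => ?_⟩
  obtain ⟨d, d1, d2, d3, d4⟩ := x5 n hn
  exact ⟨d, d1, d2, d3, d4.trans (h2.trans hge)⟩

/-- Measurable selection of the next state. -/
theorem sel_next {β : I} {N : Set (Cond I)} {Z : Set I} {𝒟 : Set (Set (Cond I))}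
    (hN : GoodN I β N Z) (hD : GoodD I β N Z 𝒟) {α : I} (hα : α ∈ Z) {Dq : ℕ → Set (Cond I)}
    (hDq : ∀ n, Dq n ∈ 𝒟) (prev : Pt I → Cond I) (tgt : Pt I → Node) (h1 : MeasC prev)
    (h2 : DepOn (Z ∩ Iio α) prev) (h3 : MeasC tgt) (h4 : DepOn (Z ∩ Iio α) tgt) (l : ℕ) :
    ∃ g : Pt I → Cond I × Node, (MeasC g ∧ DepOn (Z ∩ Iio α) g) ∧ ∀ y, Gen I N 𝒟 α y →
      prev y ∈ N → y ∈ ((prev y).restr α).body → tgt y ∈ (prev y).T α y →
      Inv N α (g y) y ∧ tgt y <+: (g y).2 ∧ (g y).1 ≤ prev y ∧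
        ∀ n, n < l → ∃ d ∈ N, d ∈ Dq n ∧ (g y).1 ≤ d ∧ d ≤ prev y := by
  haveI : Nonempty (Cond I × Node) := ⟨(Cond.one I, [])⟩
  obtain ⟨g, g1, g2, g3⟩ := exists_sel (I := I) (N ×ˢ (univ : Set Node))
    (hN.cN.prod countable_univ)
    (fun x y => Inv N α x y ∧ tgt y <+: x.2 ∧ x.1 ≤ prev y ∧
        ∀ n, n < l → ∃ d ∈ N, d ∈ Dq n ∧ x.1 ≤ d ∧ d ≤ prev y)
    (by
      intro x _
      have h : MeasurableSet {y | tgt y <+: x.2 ∧ x.1 ≤ prev y ∧
          ∀ n, n < l → ∃ d ∈ N, d ∈ Dq n ∧ x.1 ≤ d ∧ d ≤ prev y} :=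
        (h3.prodMk h1).preimage {z : Node × Cond I | z.1 <+: x.2 ∧ x.1 ≤ z.2 ∧
          ∀ n, n < l → ∃ d ∈ N, d ∈ Dq n ∧ x.1 ≤ d ∧ d ≤ z.2}
      exact (measurableSet_inv N α x).inter h)
    (Z ∩ Iio α)
    (by
      intro x _ y y' h
      simp only [depOn_inv hN α x y y' h, h2 y y' h, h4 y y' h])
  refine ⟨g, ⟨g1, g2⟩, fun y k1 k2 k3 k4 => ?_⟩
  obtain ⟨x, hx⟩ := core hN hD hα hDq k1 k2 k3 k4 l
  exact (g3 y ⟨x, ⟨hx.1.1, mem_univ _⟩, hx⟩).2

theorem depOn_comp {C : Set I} {X Y : Type*} {f : Pt I → X} (h : DepOn C f) (g : X → Y) :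
    DepOn C (fun y => g (f y)) := fun y y' hy => by
  show g (f y) = g (f y')
  rw [h y y' hy]

end Pool.Agent.MG.H58
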